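import Pool.Agent.Work.MP_738270_al.Defs

/-!
# Palindromic width: basic facts and the absorption lemma
-/

open scoped Pointwise

namespace Pool.Agent.Work.MP_738270_al

universe u

variable {G : Type u} [Group G] {X : Set G}

lemma wordVal_nil : wordVal ([] : List (Letter X)) = 1 := rfl

lemma wordVal_append (u v : List (Letter X)) : wordVal (u ++ v) = wordVal u * wordVal v := by
  simp [wordVal]

lemma wordVal_cons (a : Letter X) (v : List (Letter X)) :
    wordVal (a :: v) = letterVal a * wordVal v := by
  simp [wordVal]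

/-- Changing the sign of a letter. -/
def flipL (a : Letter X) : Letter X := (a.1, !a.2)

lemma letterVal_flip (a : Letter X) : letterVal (flipL a) = (letterVal a)⁻¹ := by
  rcases a with ⟨x, b⟩
  cases b <;> simp [letterVal, flipL]

/-- The inverse word. -/
def invW (w : List (Letter X)) : List (Letter X) := (w.map flipL).reverse

lemma wordVal_invW (w : List (Letter X)) : wordVal (invW w) = (wordVal w)⁻¹ := by
  induction w with
  | nil => simp [invW, wordVal]
  | cons a w ih =>
    have h : invW (a :: w) = invW w ++ [flipL a] := by simp [invW]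
    rw [h, wordVal_append, wordVal_cons, ih, wordVal_cons, letterVal_flip, wordVal_nil, mul_one,
      mul_inv_rev]

lemma invW_reverse (w : List (Letter X)) : (invW w).reverse = invW w.reverse := by
  simp [invW]

lemma exists_word (h : Subgroup.closure X = ⊤) (g : G) : ∃ w : List (Letter X), wordVal w = g := by
  have hg : g ∈ Subgroup.closure X := by rw [h]; trivial
  induction hg using Subgroup.closure_induction with
  | mem y hy => exact ⟨[(⟨y, hy⟩, true)], by simp [wordVal, letterVal]⟩
  | one => exact ⟨[], rfl⟩
  | mul a b _ _ ha hb =>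
    obtain ⟨u, rfl⟩ := ha
    obtain ⟨v, rfl⟩ := hb
    exact ⟨u ++ v, wordVal_append u v⟩
  | inv a _ ha =>
    obtain ⟨u, rfl⟩ := ha
    exact ⟨invW u, wordVal_invW u⟩

/-- The values of the reverses of the relators. -/
def revRel (X : Set G) : Subgroup G where
  carrier := {m | ∃ r : List (Letter X), wordVal r = 1 ∧ wordVal r.reverse = m}
  mul_mem' := by
    rintro a b ⟨r, hr, rfl⟩ ⟨s, hs, rfl⟩
    refine ⟨s ++ r, ?_, ?_⟩
    · rw [wordVal_append, hr, hs, mul_one]
    · rw [List.reverse_append, wordVal_append]
  one_mem' := ⟨[], rfl, rfl⟩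
  inv_mem' := by
    rintro a ⟨r, hr, rfl⟩
    refine ⟨invW r, ?_, ?_⟩
    · rw [wordVal_invW, hr, inv_one]
    · rw [invW_reverse, wordVal_invW]

lemma mem_revRel {m : G} :
    m ∈ revRel X ↔ ∃ r : List (Letter X), wordVal r = 1 ∧ wordVal r.reverse = m := Iff.rfl

lemma revRel_normal (h : Subgroup.closure X = ⊤) : (revRel X).Normal := by
  constructor
  rintro m ⟨r, hr, rfl⟩ g
  obtain ⟨w, rfl⟩ := exists_word h g
  refine ⟨invW w.reverse ++ r ++ w.reverse, ?_, ?_⟩
  · rw [wordVal_append, wordVal_append, hr, wordVal_invW, mul_one, inv_mul_cancel]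
  · rw [List.reverse_append, List.reverse_append, List.reverse_reverse, invW_reverse,
      List.reverse_reverse, wordVal_append, wordVal_append, wordVal_invW, mul_assoc]

/-- Absorption: the value of a palindrome times the value of a reversed relator is again the value
of a palindrome. -/
lemma absorb {w : List (Letter X)} (hw : w.reverse = w) {m : G} (hm : m ∈ revRel X) :
    ∃ w' : List (Letter X), w'.reverse = w' ∧ wordVal w' = wordVal w * m := by
  obtain ⟨r, hr, rfl⟩ := hm
  refine ⟨r ++ w ++ r.reverse, ?_, ?_⟩
  · rw [List.reverse_append, List.reverse_append, List.reverse_reverse, hw, List.append_assoc]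
  · rw [wordVal_append, wordVal_append, hr, one_mul]

/-- The palindrome representing a power of a generator. -/
lemma exists_pow_word (x : G) (hx : x ∈ X) (n : ℤ) :
    ∃ w : List (Letter X), w.reverse = w ∧ wordVal w = x ^ n := by
  rcases Int.eq_nat_or_neg n with ⟨k, rfl | rfl⟩
  · refine ⟨List.replicate k (⟨x, hx⟩, true), List.reverse_replicate, ?_⟩
    simp [wordVal, letterVal]
  · refine ⟨List.replicate k (⟨x, hx⟩, false), List.reverse_replicate, ?_⟩
    simp [wordVal, letterVal]

lemma isProd_of_list (gs : List G)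
    (h : ∀ g ∈ gs, ∃ w : List (Letter X), w.reverse = w ∧ wordVal w = g) :
    IsProd X gs.length gs.prod := by
  induction gs with
  | nil => exact ⟨[], rfl, by simp, rfl⟩
  | cons g gs ih =>
    obtain ⟨ws, h1, h2, h3⟩ := ih (fun a ha => h a (List.mem_cons_of_mem _ ha))
    obtain ⟨w, hw, rfl⟩ := h g List.mem_cons_self
    refine ⟨w :: ws, by simp [h1], ?_, by simp [h3]⟩
    intro v hv
    rcases List.mem_cons.1 hv with rfl | hv
    · exact hw
    · exact h2 v hv

lemma isProd_mul_revRel {k : ℕ} {g m : G} (h : IsProd X (k + 1) g) (hm : m ∈ revRel X) :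
    IsProd X (k + 1) (g * m) := by
  obtain ⟨ws, h1, h2, rfl⟩ := h
  rcases List.eq_nil_or_concat ws with rfl | ⟨us, w, rfl⟩
  · simp at h1
  · obtain ⟨w', hw', hv⟩ := absorb (h2 w (by simp)) hm
    refine ⟨us ++ [w'], by simpa using h1, ?_, ?_⟩
    · intro v hv'
      rcases List.mem_append.1 hv' with hv' | hv'
      · exact h2 v (by simp [hv'])
      · rw [List.mem_singleton.1 hv']
        exact hw'
    · simp [hv, mul_assoc]

lemma palLength_le {k : ℕ} {g : G} (h : IsProd X k g) : palLength X g ≤ k :=
  iInf₂_le k h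

lemma palWidth_le {k : ℕ} (h : ∀ g : G, palLength X g ≤ k) : palWidth X ≤ k :=
  iSup_le h

/-- In a commutative group every element of the subgroup generated by `q 0, ..., q (d-1)` is a
product of powers of these elements. -/
lemma exists_prod_pow {Q : Type u} [CommGroup Q] {d : ℕ} (q : Fin d → Q)
    (h : Subgroup.closure (Set.range q) = ⊤) (a : Q) : ∃ n : Fin d → ℤ, ∏ i, q i ^ n i = a := by
  have ha : a ∈ Subgroup.closure (Set.range q) := by rw [h]; trivial
  induction ha using Subgroup.closure_induction with
  | mem y hy =>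
    obtain ⟨i, rfl⟩ := hy
    refine ⟨Pi.single i 1, ?_⟩
    rw [Finset.prod_eq_single i]
    · simp
    · intro j _ hj
      simp [hj]
    · intro hi
      exact absurd (Finset.mem_univ i) hi
  | one => exact ⟨0, by simp⟩
  | mul a b _ _ ha hb =>
    obtain ⟨n, rfl⟩ := ha
    obtain ⟨m, rfl⟩ := hb
    refine ⟨n + m, ?_⟩
    simp only [Pi.add_apply, zpow_add, Finset.prod_mul_distrib]
  | inv a _ ha =>
    obtain ⟨n, rfl⟩ := ha
    refine ⟨-n, ?_⟩
    simp only [Pi.neg_apply, zpow_neg, Finset.prod_inv_distrib]

lemma comm_of_generators {Q : Type u} [Group Q] {T : Set Q} (hT : Subgroup.closure T = ⊤)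
    (h : ∀ a ∈ T, ∀ b ∈ T, a * b = b * a) (a b : Q) : a * b = b * a := by
  have h1 : ∀ a ∈ T, ∀ b : Q, a * b = b * a := by
    intro a ha b
    have hb : b ∈ Subgroup.centralizer {a} := by
      have : Subgroup.closure T ≤ Subgroup.centralizer {a} := by
        rw [Subgroup.closure_le]
        intro c hc
        rw [SetLike.mem_coe, Subgroup.mem_centralizer_singleton_iff]
        first
          | exact (h a ha c hc)
          | exact (h a ha c hc).symm
      exact this (by rw [hT]; trivial)
    rw [Subgroup.mem_centralizer_singleton_iff] at hb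
    first
      | exact hb
      | exact hb.symm
  have ha : a ∈ Subgroup.centralizer {b} := by
    have : Subgroup.closure T ≤ Subgroup.centralizer {b} := by
      rw [Subgroup.closure_le]
      intro c hc
      rw [SetLike.mem_coe, Subgroup.mem_centralizer_singleton_iff]
      first
        | exact h1 c hc b
        | exact (h1 c hc b).symm
    exact this (by rw [hT]; trivial)
  rw [Subgroup.mem_centralizer_singleton_iff] at ha
  first
    | exact ha
    | exact ha.symm

/-- If `X` contains the finite generating set `S` of `G` and the commutators of elements of `S` are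
values of reversed relators, then every element of `G` is a product of `|S|` palindromes over
`X`. -/
theorem palWidth_le_card_of_comm (S : Set G) (hfin : S.Finite) (hgen : Subgroup.closure S = ⊤)
    (hSX : S ⊆ X) (hcommM : ∀ s ∈ S, ∀ t ∈ S, t * s * t⁻¹ * s⁻¹ ∈ revRel X) :
    palWidth X ≤ S.ncard := by
  have hXgen : Subgroup.closure X = ⊤ := by
    rw [eq_top_iff, ← hgen]
    exact Subgroup.closure_mono hSX
  haveI hN : (revRel X).Normal := revRel_normal hXgen
  -- the quotient is commutative
  have hQgen : Subgroup.closure ((QuotientGroup.mk' (revRel X)) '' S) = ⊤ := by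
    rw [← MonoidHom.map_closure, hgen, Subgroup.map_top_of_surjective]
    exact QuotientGroup.mk'_surjective _
  have hQcomm : ∀ a b : G ⧸ revRel X, a * b = b * a := by
    apply comm_of_generators hQgen
    rintro _ ⟨s, hs, rfl⟩ _ ⟨t, ht, rfl⟩
    rw [← map_mul, ← map_mul]
    change ((s * t : G) : G ⧸ revRel X) = ((t * s : G) : G ⧸ revRel X)
    rw [QuotientGroup.eq]
    have h1 := hN.conj_mem _ (hcommM t ht s hs) (s * t)⁻¹
    have h2 : (s * t)⁻¹ * (s * t * s⁻¹ * t⁻¹) * ((s * t)⁻¹)⁻¹ = ((s * t)⁻¹ * (t * s))⁻¹ := by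
      group
    rw [h2] at h1
    simpa using (revRel X).inv_mem h1
  letI : CommGroup (G ⧸ revRel X) :=
    { (inferInstance : Group (G ⧸ revRel X)) with mul_comm := hQcomm }
  -- enumerate `S`
  obtain ⟨d, hd, f, hf, hrange⟩ : ∃ d : ℕ, d = S.ncard ∧ ∃ f : Fin d → G, (∀ i, f i ∈ S) ∧
      Set.range f = S := by
    haveI := hfin.to_subtype
    refine ⟨S.ncard, rfl, ?_⟩
    have hcard : Nat.card S = S.ncard := rfl
    have e : Fin S.ncard ≃ S := (Finite.equivFinOfCardEq hcard).symm
    refine ⟨fun i => (e i : G), fun i => (e i).2, ?_⟩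
    ext x
    constructor
    · rintro ⟨i, rfl⟩
      exact (e i).2
    · intro hx
      exact ⟨e.symm ⟨x, hx⟩, by simp⟩
  rw [← hd]
  apply palWidth_le
  intro g
  apply palLength_le
  obtain ⟨n, hn⟩ := exists_prod_pow (fun i => (QuotientGroup.mk' (revRel X)) (f i)) (by
    have : Set.range (fun i => (QuotientGroup.mk' (revRel X)) (f i)) =
        (QuotientGroup.mk' (revRel X)) '' S := by
      rw [← hrange, ← Set.range_comp]
      rfl
    rw [this]
    exact hQgen) ((QuotientGroup.mk' (revRel X)) g)
  set p : G := (List.ofFn (fun i => f i ^ n i)).prod with hp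
  have hpg : p⁻¹ * g ∈ revRel X := by
    rw [← QuotientGroup.eq]
    change (QuotientGroup.mk' (revRel X)) p = (QuotientGroup.mk' (revRel X)) g
    rw [← hn, hp, map_list_prod, List.map_ofFn, List.prod_ofFn]
    apply Finset.prod_congr rfl
    intro i _
    simp
  have hprod : IsProd X d p := by
    have := isProd_of_list (X := X) (List.ofFn (fun i => f i ^ n i)) (by
      intro a ha
      rw [List.mem_ofFn] at ha
      obtain ⟨i, rfl⟩ := ha
      exact exists_pow_word (f i) (hSX (hf i)) (n i))
    rwa [List.length_ofFn] at this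
  have hg : g = p * (p⁻¹ * g) := by group
  rw [hg]
  rcases Nat.eq_zero_or_pos d with h0 | hpos
  · -- trivial group
    subst h0
    have hS : S = ∅ := by
      rw [← hrange]
      exact Set.range_eq_empty f
    have htriv : ∀ x : G, x = 1 := by
      intro x
      have hx : x ∈ Subgroup.closure S := by rw [hgen]; trivial
      rw [hS, Subgroup.closure_empty] at hx
      exact Subgroup.mem_bot.1 hx
    rw [htriv (p * (p⁻¹ * g)), ← htriv p]
    exact hprod
  · obtain ⟨k, rfl⟩ : ∃ k, d = k + 1 := ⟨d - 1, by omega⟩
    exact isProd_mul_revRel hprod hpg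

/-- If `X` contains `S` and all products of two elements of `S`, where `S` is finite and generates
`G`, then every element of `G` is a product of `|S|` palindromes over `X`. -/
theorem palWidth_le_card (S : Set G) (hfin : S.Finite) (hgen : Subgroup.closure S = ⊤)
    (hX : S ∪ S * S ⊆ X) : palWidth X ≤ S.ncard := by
  have hSX : S ⊆ X := fun s hs => hX (Or.inl hs)
  apply palWidth_le_card_of_comm S hfin hgen hSX
  intro s hs t ht
  have hst : s * t ∈ X := hX (Or.inr (Set.mul_mem_mul hs ht))
  refine ⟨[(⟨s * t, hst⟩, false), (⟨s, hSX hs⟩, true), (⟨t, hSX ht⟩, true)], ?_, ?_⟩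
  · simp [wordVal, letterVal]
  · simp [wordVal, letterVal, mul_assoc]

end Pool.Agent.Work.MP_738270_al
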