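import Mathlib

/-!
# Palindromic width: definitions
-/

namespace Pool.Agent.Work.MP_738270_al

universe u

variable {G : Type u} [Group G]

/-- A letter of `X ∪ X⁻¹`: the pair `(x, true)` stands for `x`, the pair `(x, false)` for `x⁻¹`. -/
abbrev Letter (X : Set G) : Type u := X × Bool

/-- The element of `G` represented by a letter. -/
def letterVal {X : Set G} (a : Letter X) : G := if a.2 then (a.1 : G) else (a.1 : G)⁻¹

/-- The element of `G` represented by a word in the letters `X ∪ X⁻¹`. -/
def wordVal {X : Set G} (w : List (Letter X)) : G := (w.map letterVal).prod

/-- `IsProd X k g`: the element `g` is a product of `k` elements each represented by a palindrome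
over `X`, that is by a word that equals its reverse letter by letter. -/
def IsProd (X : Set G) (k : ℕ) (g : G) : Prop :=
  ∃ ws : List (List (Letter X)), ws.length = k ∧ (∀ w ∈ ws, w.reverse = w) ∧
    (ws.map wordVal).prod = g

/-- The palindromic length of `g` over `X`: the least `k` such that `g` is a product of `k`
elements each represented by a palindrome over `X`. -/
noncomputable def palLength (X : Set G) (g : G) : ℕ∞ := ⨅ (k : ℕ) (_ : IsProd X k g), (k : ℕ∞)

/-- The palindromic width `PW(G, X)`, the supremum of the palindromic lengths. -/
noncomputable def palWidth (X : Set G) : ℕ∞ := ⨆ g : G, palLength X g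

/-- Every element of the commutator subgroup of `G` is a product of at most `c` elements, each of
which is a commutator or is represented by a palindrome over `X`. -/
def MixedWidthLE (X : Set G) (c : ℕ) : Prop :=
  ∀ g ∈ commutator G, ∃ l : List G, l.length ≤ c ∧
    (∀ x ∈ l, x ∈ commutatorSet G ∨ ∃ w : List (Letter X), w.reverse = w ∧ wordVal w = x) ∧
    l.prod = g

end Pool.Agent.Work.MP_738270_al
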