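import Pool.Agent.Work.MP_738270_al.Basic

/-!
# The free group of rank two: palindromic width depends on the generating set
-/

namespace Pool.Agent.Work.MP_738270_al

open FreeGroup

/-- The free group of rank two. -/
abbrev F2 : Type := FreeGroup Bool

/-- Antisymmetric weight of a pair of generators. -/
def sgn : Bool → Bool → ℤ
  | false, true => 1
  | true, false => -1
  | _, _ => 0

/-- Weight of two adjacent letters. -/
def wt (a b : Bool × Bool) : ℤ := if a.2 = b.2 then sgn a.1 b.1 else 0

/-- Change the sign of a letter. -/
def flip2 (a : Bool × Bool) : Bool × Bool := (a.1, !a.2)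

lemma wt_bound : ∀ a b : Bool × Bool, |wt a b| ≤ 1 := by decide

lemma wt_anti : ∀ a b : Bool × Bool, wt b a = -wt a b := by decide

lemma wt_flip : ∀ a b : Bool × Bool, wt (flip2 a) (flip2 b) = wt a b := by decide

/-- Total weight of the adjacent pairs of a word. -/
def tot : List (Bool × Bool) → ℤ
  | [] => 0
  | [_] => 0
  | a :: b :: L => wt a b + tot (b :: L)

/-- The contribution of the junction in a concatenation. -/
def junc (u v : List (Bool × Bool)) : ℤ :=
  match u.getLast?, v.head? with
  | some a, some b => wt a b
  | _, _ => 0

lemma junc_bound (u v : List (Bool × Bool)) : |junc u v| ≤ 1 := by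
  unfold junc
  rcases u.getLast? with _ | a <;> rcases v.head? with _ | b
  · simp
  · simp
  · simp
  · exact wt_bound a b

lemma tot_append (u v : List (Bool × Bool)) : tot (u ++ v) = tot u + tot v + junc u v := by
  induction u with
  | nil => simp [tot, junc]
  | cons a u ih =>
    rcases u with _ | ⟨b, u⟩
    · rcases v with _ | ⟨c, v⟩
      · simp [tot, junc]
      · simp [tot, junc]
        ring
    · have h1 : tot (a :: b :: u ++ v) = wt a b + tot (b :: u ++ v) := rfl
      have h2 : tot (a :: b :: u) = wt a b + tot (b :: u) := rfl
      have h3 : junc (a :: b :: u) v = junc (b :: u) v := by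
        unfold junc
        rw [List.getLast?_cons_cons]
      rw [h1, h2, h3, ih]
      ring

lemma tot_reverse (u : List (Bool × Bool)) : tot u.reverse = -tot u := by
  induction u with
  | nil => rfl
  | cons a u ih =>
    rw [List.reverse_cons, tot_append, ih]
    rcases u with _ | ⟨b, u⟩
    · simp [tot, junc]
    · have h2 : tot (a :: b :: u) = wt a b + tot (b :: u) := rfl
      have h3 : junc (b :: u).reverse [a] = wt b a := by
        unfold junc
        simp
      have h4 : tot [a] = 0 := rfl
      rw [h2, h3, h4, wt_anti a b]
      ring

lemma tot_map_flip (u : List (Bool × Bool)) : tot (u.map flip2) = tot u := by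
  induction u with
  | nil => rfl
  | cons a u ih =>
    rcases u with _ | ⟨b, u⟩
    · rfl
    · have h2 : tot (a :: b :: u) = wt a b + tot (b :: u) := rfl
      have h1 : tot ((a :: b :: u).map flip2) = wt (flip2 a) (flip2 b) + tot ((b :: u).map flip2) :=
        rfl
      rw [h1, h2, ih, wt_flip]

lemma invRev_eq (u : List (Bool × Bool)) : invRev u = (u.map flip2).reverse := rfl

lemma tot_invRev (u : List (Bool × Bool)) : tot (invRev u) = -tot u := by
  rw [invRev_eq, tot_reverse, tot_map_flip]

/-- Cancellation in the product of two reduced words. -/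
lemma exists_cancel (n : ℕ) : ∀ (L₁ L₂ : List (Bool × Bool)), L₁.length ≤ n → FreeGroup.IsReduced L₁ →
    FreeGroup.IsReduced L₂ → ∃ u p v, L₁ = u ++ p ∧ L₂ = invRev p ++ v ∧ reduce (L₁ ++ L₂) = u ++ v := by
  induction n with
  | zero =>
    intro L₁ L₂ hn h1 h2
    have : L₁ = [] := List.length_eq_zero_iff.1 (by omega)
    subst this
    exact ⟨[], [], L₂, rfl, rfl, by simpa using h2.reduce_eq⟩
  | succ n ih =>
    intro L₁ L₂ hn h1 h2
    rcases List.eq_nil_or_concat L₁ with rfl | ⟨L, a, rfl⟩
    · exact ⟨[], [], L₂, rfl, rfl, by simpa using h2.reduce_eq⟩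
    · rw [List.concat_eq_append] at hn h1 ⊢
      rcases L₂ with _ | ⟨b, M⟩
      · refine ⟨L ++ [a], [], [], by simp, rfl, ?_⟩
        simpa using h1.reduce_eq
      · by_cases hab : b = flip2 a
        · have hL : FreeGroup.IsReduced L := by
            unfold FreeGroup.IsReduced at *
            exact (List.isChain_append.1 h1).1
          have hM : FreeGroup.IsReduced M := by
            unfold FreeGroup.IsReduced at *
            exact (List.isChain_append (l₁ := [b]) (l₂ := M)).1 h2 |>.2.1
          obtain ⟨u, p, v, hu, hv, hr⟩ := ih L M (by simp at hn; omega) hL hM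
          refine ⟨u, p ++ [a], v, ?_, ?_, ?_⟩
          · rw [hu, List.append_assoc]
          · rw [hab, hv, invRev_eq, invRev_eq]
            simp
          · rw [← hr]
            have hstep : Red.Step (L ++ [a] ++ (b :: M)) (L ++ M) := by
              have : L ++ [a] ++ (b :: M) = L ++ (a.1, a.2) :: (a.1, !a.2) :: M := by
                rw [hab]
                simp [flip2]
              rw [this]
              exact Red.Step.not
            exact reduce.Step.eq hstep
        · refine ⟨L ++ [a], [], b :: M, by simp, rfl, ?_⟩
          apply FreeGroup.IsReduced.reduce_eq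
          have hab2 : a.1 = b.1 → a.2 = b.2 := by
            intro h
            by_contra h3
            apply hab
            rcases a with ⟨a1, a2⟩
            rcases b with ⟨b1, b2⟩
            simp only at h h3
            subst h
            simp only [flip2, Prod.mk.injEq, true_and]
            cases a2 <;> cases b2 <;> simp_all
          unfold FreeGroup.IsReduced at *
          rw [List.isChain_append]
          refine ⟨h1, h2, ?_⟩
          intro x hx y hy
          simp at hx hy
          subst hx
          subst hy
          exact hab2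

/-- The quasimorphism on the free group of rank two. -/
def qm (g : F2) : ℤ := tot g.toWord

lemma qm_mul (g h : F2) : |qm (g * h) - qm g - qm h| ≤ 3 := by
  obtain ⟨u, p, v, hu, hv, hr⟩ := exists_cancel g.toWord.length g.toWord h.toWord le_rfl
    isReduced_toWord isReduced_toWord
  unfold qm
  rw [toWord_mul, hr, hu, hv, tot_append, tot_append, tot_append, tot_invRev]
  have h1 := abs_le.1 (junc_bound u v)
  have h2 := abs_le.1 (junc_bound u p)
  have h3 := abs_le.1 (junc_bound (invRev p) v)
  rw [abs_le]
  constructor
  · linarith [h1.1, h2.2, h3.2]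
  · linarith [h1.2, h2.1, h3.1]

lemma qm_inv (g : F2) : qm g⁻¹ = -qm g := by
  unfold qm
  rw [toWord_inv, tot_invRev]

/-- The automorphism inverting both generators. -/
def invAut : F2 →* F2 := FreeGroup.lift (fun i => (FreeGroup.of i)⁻¹)

lemma invAut_mk (L : List (Bool × Bool)) : invAut (mk L) = mk (L.map flip2) := by
  induction L with
  | nil => rfl
  | cons a L ih =>
    have h1 : (mk (a :: L) : F2) = mk [a] * mk L := by simp
    have h2 : (mk ((a :: L).map flip2) : F2) = mk [flip2 a] * mk (L.map flip2) := by simp
    rw [h1, h2, _root_.map_mul, ih]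
    congr 1
    rcases a with ⟨i, b⟩
    cases b
    · simp [invAut, flip2, FreeGroup.of]
    · simp [invAut, flip2, FreeGroup.of, invRev]

lemma isReduced_map_flip {L : List (Bool × Bool)} (h : FreeGroup.IsReduced L) :
    FreeGroup.IsReduced (L.map flip2) := by
  unfold FreeGroup.IsReduced at *
  rw [List.isChain_map]
  refine h.imp ?_
  intro a b hab h1
  have := hab h1
  simp only [flip2, this]

lemma qm_invAut (g : F2) : qm (invAut g) = qm g := by
  have h1 : invAut g = mk (g.toWord.map flip2) := by
    conv_lhs => rw [← mk_toWord (x := g)]
    rw [invAut_mk]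
  unfold qm
  rw [h1, toWord_mk, (isReduced_map_flip isReduced_toWord).reduce_eq, tot_map_flip]

/-- The basis of the free group of rank two. -/
def basis : Set F2 := {FreeGroup.of false, FreeGroup.of true}

lemma invAut_letter (a : Letter basis) : invAut (letterVal a) = (letterVal a)⁻¹ := by
  rcases a with ⟨⟨x, hx⟩, b⟩
  have hx2 : invAut x = x⁻¹ := by
    rcases hx with rfl | hx
    · simp [invAut]
    · rw [Set.mem_singleton_iff.1 hx]
      simp [invAut]
  cases b
  · simp only [letterVal, Bool.false_eq_true, if_false, _root_.map_inv, hx2]
  · simp only [letterVal, if_true, hx2]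

lemma invAut_word (w : List (Letter basis)) : (invAut (wordVal w))⁻¹ = wordVal w.reverse := by
  induction w with
  | nil => simp [wordVal]
  | cons a w ih =>
    rw [wordVal_cons, _root_.map_mul, mul_inv_rev, ih, List.reverse_cons, wordVal_append, wordVal_cons,
      wordVal_nil, mul_one, invAut_letter, inv_inv]

lemma qm_pal {w : List (Letter basis)} (hw : w.reverse = w) : qm (wordVal w) = 0 := by
  have h1 := invAut_word w
  rw [hw] at h1
  have h2 : qm (wordVal w) = - qm (wordVal w) := by
    conv_lhs => rw [← h1]
    rw [qm_inv, qm_invAut]
  linarith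

lemma qm_isProd (k : ℕ) : ∀ g : F2, IsProd basis k g → |qm g| ≤ 3 * k := by
  induction k with
  | zero =>
    rintro g ⟨ws, h1, h2, rfl⟩
    have : ws = [] := List.length_eq_zero_iff.1 h1
    subst this
    simp [qm, tot]
  | succ k ih =>
    rintro g ⟨ws, h1, h2, rfl⟩
    rcases ws with _ | ⟨w, ws⟩
    · simp at h1
    · have h3 := ih (ws.map wordVal).prod ⟨ws, by simpa using h1,
        fun v hv => h2 v (List.mem_cons_of_mem _ hv), rfl⟩
      have h4 := qm_mul (wordVal w) (ws.map wordVal).prod
      rw [qm_pal (h2 w List.mem_cons_self)] at h4
      rw [List.map_cons, List.prod_cons]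
      rw [abs_le] at *
      push_cast
      constructor
      · linarith [h3.1, h3.2, h4.1, h4.2]
      · linarith [h3.1, h3.2, h4.1, h4.2]

/-- The word of the `n`-th power of the commutator of the two generators. -/
def comWord : ℕ → List (Bool × Bool)
  | 0 => []
  | n + 1 => (false, true) :: (true, true) :: (false, false) :: (true, false) :: comWord n

lemma comWord_head (n : ℕ) : comWord n = [] ∨ ∃ L, comWord n = (false, true) :: L := by
  rcases n with _ | n
  · exact Or.inl rfl
  · exact Or.inr ⟨_, rfl⟩

lemma comWord_reduced (n : ℕ) : FreeGroup.IsReduced (comWord n) := by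
  induction n with
  | zero => exact FreeGroup.IsReduced.nil
  | succ n ih =>
    have h : comWord (n + 1) =
      (false, true) :: (true, true) :: (false, false) :: (true, false) :: comWord n := rfl
    rw [h]
    unfold FreeGroup.IsReduced at *
    rcases comWord_head n with h0 | ⟨L, h0⟩
    · rw [h0]
      simp
    · rw [h0] at ih ⊢
      simp [ih]

lemma comWord_tot (n : ℕ) : tot (comWord n) = 2 * n := by
  induction n with
  | zero => rfl
  | succ n ih =>
    have h : comWord (n + 1) =
      (false, true) :: (true, true) :: (false, false) :: (true, false) :: comWord n := rfl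
    rw [h]
    rcases comWord_head n with h0 | ⟨L, h0⟩
    · rw [h0] at ih ⊢
      simp [tot, wt, sgn] at ih ⊢
      omega
    · rw [h0] at ih ⊢
      simp only [tot] at ih ⊢
      rw [ih]
      simp [wt, sgn]
      ring

theorem palWidth_basis : palWidth basis = ⊤ := by
  rw [ENat.eq_top_iff_forall_ge]
  intro m
  have h1 : (m : ℕ∞) ≤ palLength basis (mk (comWord (3 * m))) := by
    apply le_iInf₂
    intro k hk
    have h2 := qm_isProd k _ hk
    have h3 : qm (mk (comWord (3 * m))) = 2 * ((3 * m : ℕ) : ℤ) := by
      unfold qm
      rw [toWord_mk, (comWord_reduced _).reduce_eq, comWord_tot]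
    rw [h3, abs_le] at h2
    have h4 := h2.2
    push_cast at h4
    exact_mod_cast (by omega : m ≤ k)
  exact h1.trans (le_iSup (fun g => palLength basis g) _)

lemma closure_basis : Subgroup.closure basis = ⊤ := by
  have h := FreeGroup.closure_range_of (α := Bool)
  have h2 : Set.range (FreeGroup.of : Bool → F2) = basis := by
    ext x
    constructor
    · rintro ⟨b, rfl⟩
      cases b
      · exact Or.inl rfl
      · exact Or.inr rfl
    · rintro (rfl | hx)
      · exact ⟨false, rfl⟩
      · exact ⟨true, (Set.mem_singleton_iff.1 hx).symm⟩
  rw [← h2]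
  exact h

lemma basis_ncard : basis.ncard = 2 := by
  unfold basis
  rw [Set.ncard_pair]
  intro h
  exact absurd (FreeGroup.of_injective h) (by decide)

theorem palWidth_triple :
    palWidth (basis ∪ {FreeGroup.of false * FreeGroup.of true} : Set F2) ≤ 2 := by
  have h := palWidth_le_card_of_comm (X := basis ∪ {FreeGroup.of false * FreeGroup.of true}) basis
    (by unfold basis; exact Set.toFinite _) closure_basis Set.subset_union_left (by
      have ha : (FreeGroup.of false : F2) ∈
          (basis ∪ {FreeGroup.of false * FreeGroup.of true} : Set F2) := Or.inl (Or.inl rfl)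
      have hb : (FreeGroup.of true : F2) ∈
          (basis ∪ {FreeGroup.of false * FreeGroup.of true} : Set F2) := Or.inl (Or.inr rfl)
      have hab : (FreeGroup.of false * FreeGroup.of true : F2) ∈
          (basis ∪ {FreeGroup.of false * FreeGroup.of true} : Set F2) := Or.inr rfl
      have key : (FreeGroup.of true * FreeGroup.of false * (FreeGroup.of true)⁻¹ *
          (FreeGroup.of false)⁻¹ : F2) ∈
          revRel (basis ∪ {FreeGroup.of false * FreeGroup.of true} : Set F2) := by
        refine ⟨[(⟨_, hab⟩, false), (⟨_, ha⟩, true), (⟨_, hb⟩, true)], ?_, ?_⟩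
        · simp [wordVal, letterVal]
        · simp [wordVal, letterVal, mul_assoc]
      intro s hs t ht
      have hs' : s = FreeGroup.of false ∨ s = FreeGroup.of true := hs
      have ht' : t = FreeGroup.of false ∨ t = FreeGroup.of true := ht
      rcases hs' with rfl | rfl <;> rcases ht' with rfl | rfl
      · simp
      · exact key
      · have := Subgroup.inv_mem _ key
        simpa [mul_assoc] using this
      · simp)
  rw [basis_ncard] at h
  exact h

end Pool.Agent.Work.MP_738270_al
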