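import Pool.Agent.Work.MP_738270_al.Basic

/-!
# Solvable groups of finite commutator width have finite palindromic width
-/

open scoped commutatorElement

namespace Pool.Agent.Work.MP_738270_al

universe u

variable {G : Type u} [Group G] {X : Set G}

lemma isProd_zero_one : IsProd X 0 (1 : G) := ⟨[], rfl, by simp, rfl⟩

lemma isProd_mul {k l : ℕ} {g h : G} (hg : IsProd X k g) (hh : IsProd X l h) :
    IsProd X (k + l) (g * h) := by
  obtain ⟨u, hu1, hu2, rfl⟩ := hg
  obtain ⟨v, hv1, hv2, rfl⟩ := hh
  refine ⟨u ++ v, by simp [hu1, hv1], ?_, by simp⟩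
  intro w hw
  rcases List.mem_append.1 hw with hw | hw
  · exact hu2 w hw
  · exact hv2 w hw

lemma isProd_one (k : ℕ) : IsProd X k (1 : G) := by
  refine ⟨List.replicate k [], by simp, ?_, ?_⟩
  · intro w hw
    rw [List.eq_of_mem_replicate hw]
    rfl
  · simp [wordVal]

lemma isProd_mono {k l : ℕ} (h : k ≤ l) {g : G} (hg : IsProd X k g) : IsProd X l g := by
  obtain ⟨m, rfl⟩ := Nat.exists_eq_add_of_le h
  have := isProd_mul hg (isProd_one (X := X) m)
  rwa [mul_one] at this

lemma isProd_inv {k : ℕ} {g : G} (hg : IsProd X k g) : IsProd X k g⁻¹ := by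
  obtain ⟨u, hu1, hu2, rfl⟩ := hg
  refine ⟨(u.map invW).reverse, by simp [hu1], ?_, ?_⟩
  · intro w hw
    rw [List.mem_reverse, List.mem_map] at hw
    obtain ⟨v, hv, rfl⟩ := hw
    rw [invW_reverse, hu2 v hv]
  · rw [List.map_reverse, List.map_map, List.prod_inv_reverse, List.map_map]
    congr 2
    apply List.map_congr_left
    intro v _
    simp [wordVal_invW]

/-- The palindromes are stable under `p ↦ a p b`, where `a` is the value of a word and `b` the value
of its reverse. -/
lemma pal_conj_aux (u w : List (Letter X)) (hw : w.reverse = w) :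
    ∃ w' : List (Letter X), w'.reverse = w' ∧
      wordVal w' = wordVal u * wordVal w * wordVal u.reverse := by
  refine ⟨u ++ w ++ u.reverse, ?_, ?_⟩
  · rw [List.reverse_append, List.reverse_append, List.reverse_reverse, hw, List.append_assoc]
  · rw [wordVal_append, wordVal_append]

lemma pal_conj_aux' (u w : List (Letter X)) (hw : w.reverse = w) :
    ∃ w' : List (Letter X), w'.reverse = w' ∧
      wordVal w' = (wordVal u.reverse)⁻¹ * wordVal w * (wordVal u)⁻¹ := by
  obtain ⟨w', h1, h2⟩ := pal_conj_aux (invW u.reverse) w hw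
  refine ⟨w', h1, ?_⟩
  rw [h2, invW_reverse, List.reverse_reverse, wordVal_invW, wordVal_invW]

/-- Products of an even number of palindromes are stable under conjugation. -/
lemma isProd_conj_word (u : List (Letter X)) (k : ℕ) : ∀ g : G, IsProd X (2 * k) g →
    IsProd X (2 * k) (wordVal u * g * (wordVal u)⁻¹) := by
  induction k with
  | zero =>
    rintro g ⟨ws, h1, h2, rfl⟩
    have : ws = [] := List.length_eq_zero_iff.1 h1
    subst this
    simpa using isProd_zero_one
  | succ k ih =>
    rintro g ⟨ws, h1, h2, rfl⟩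
    rcases ws with _ | ⟨w₁, _ | ⟨w₂, ws⟩⟩
    · simp at h1
    · simp at h1
      omega
    · have h3 := ih (ws.map wordVal).prod ⟨ws, by simp at h1; omega,
        fun v hv => h2 v (by simp [hv]), rfl⟩
      obtain ⟨a, ha1, ha2⟩ := pal_conj_aux u w₁ (h2 w₁ (by simp))
      obtain ⟨b, hb1, hb2⟩ := pal_conj_aux' u w₂ (h2 w₂ (by simp))
      have h4 : IsProd X 2 (wordVal a * wordVal b) :=
        ⟨[a, b], rfl, by simp [ha1, hb1], by simp⟩
      have h5 := isProd_mul h4 h3
      have h6 : 2 + 2 * k = 2 * (k + 1) := by ring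
      rw [h6] at h5
      have h7 : wordVal u * (List.map wordVal (w₁ :: w₂ :: ws)).prod * (wordVal u)⁻¹ =
          wordVal a * wordVal b * (wordVal u * (List.map wordVal ws).prod * (wordVal u)⁻¹) := by
        rw [ha2, hb2, List.map_cons, List.map_cons, List.prod_cons, List.prod_cons]
        group
      rw [h7]
      exact h5

lemma isProd_conj (hgen : Subgroup.closure X = ⊤) {k : ℕ} {g : G} (hg : IsProd X (2 * k) g)
    (a : G) : IsProd X (2 * k) (a * g * a⁻¹) := by
  obtain ⟨u, rfl⟩ := exists_word hgen a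
  exact isProd_conj_word u k g hg

/-- `Close k H g`: up to a product of `2 k` palindromes, `g` lies in `H`. -/
def Close (X : Set G) (k : ℕ) (H : Subgroup G) (g : G) : Prop :=
  ∃ b : G, IsProd X (2 * k) b ∧ b⁻¹ * g ∈ H

lemma close_mul {k l : ℕ} {H : Subgroup G} [hH : H.Normal] {g h : G} (hg : Close X k H g)
    (hh : Close X l H h) : Close X (k + l) H (g * h) := by
  obtain ⟨b, hb, hb2⟩ := hg
  obtain ⟨c, hc, hc2⟩ := hh
  refine ⟨b * c, ?_, ?_⟩
  · rw [mul_add]
    exact isProd_mul hb hc
  · have h1 : (b * c)⁻¹ * (g * h) = (c⁻¹ * (b⁻¹ * g) * (c⁻¹)⁻¹) * (c⁻¹ * h) := by group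
    rw [h1]
    exact H.mul_mem (hH.conj_mem _ hb2 _) hc2

lemma close_one (k : ℕ) (H : Subgroup G) : Close X k H 1 :=
  ⟨1, isProd_one _, by simp⟩

lemma close_mono {k l : ℕ} (h : k ≤ l) {H : Subgroup G} {g : G} (hg : Close X k H g) :
    Close X l H g := by
  obtain ⟨b, hb, hb2⟩ := hg
  exact ⟨b, isProd_mono (by omega) hb, hb2⟩

lemma close_commutator (hgen : Subgroup.closure X = ⊤) {k : ℕ} {H : Subgroup G} [hH : H.Normal]
    {g h : G} (hg : Close X k H g) (hh : Close X k H h) : Close X (4 * k) ⁅H, H⁆ ⁅g, h⁆ := by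
  obtain ⟨p, hp, hp2⟩ := hg
  obtain ⟨q, hq, hq2⟩ := hh
  set s := p⁻¹ * g with hs
  set t := q⁻¹ * h with ht
  have hg' : g = p * s := by rw [hs]; group
  have hh' : h = q * t := by rw [ht]; group
  refine ⟨p * (s * q * s⁻¹) * (t * p⁻¹ * t⁻¹) * q⁻¹, ?_, ?_⟩
  · have h1 := isProd_conj hgen hq s
    have h2 := isProd_conj hgen (isProd_inv hp) t
    have h3 := isProd_mul (isProd_mul (isProd_mul hp h1) h2) (isProd_inv hq)
    have h4 : 2 * k + 2 * k + 2 * k + 2 * k = 2 * (4 * k) := by ring
    rwa [h4] at h3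
  · have h5 : (p * (s * q * s⁻¹) * (t * p⁻¹ * t⁻¹) * q⁻¹)⁻¹ * ⁅g, h⁆ =
        (q * t * p * t⁻¹) * ⁅s, t⁆ * (q * t * p * t⁻¹)⁻¹ := by
      rw [hg', hh', commutatorElement_def, commutatorElement_def]
      group
    rw [h5]
    have hnorm : (⁅H, H⁆ : Subgroup G).Normal := inferInstance
    exact hnorm.conj_mem _ (Subgroup.commutator_mem_commutator hp2 hq2) _

lemma close_list (hgen : Subgroup.closure X = ⊤) {k : ℕ} (hk : 1 ≤ k) {H : Subgroup G}
    [hH : H.Normal] (hall : ∀ g : G, Close X k H g) (l : List G)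
    (hl : ∀ x ∈ l, x ∈ commutatorSet G ∨ ∃ w : List (Letter X), w.reverse = w ∧ wordVal w = x) :
    Close X (l.length * (4 * k)) ⁅H, H⁆ l.prod := by
  induction l with
  | nil => simpa using close_one _ _
  | cons a l ih =>
    have h1 := ih (fun x hx => hl x (List.mem_cons_of_mem _ hx))
    have h2 : Close X (4 * k) ⁅H, H⁆ a := by
      rcases hl a List.mem_cons_self with ⟨g, h, rfl⟩ | ⟨w, hw, rfl⟩
      · exact close_commutator hgen (hall g) (hall h)
      · refine ⟨wordVal w, ?_, by simp⟩
        have h3 : IsProd X 1 (wordVal w) := ⟨[w], rfl, by simpa using hw, by simp⟩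
        exact isProd_mono (by omega) h3
    have h3 := close_mul h2 h1
    rw [List.prod_cons, List.length_cons]
    have h4 : 4 * k + l.length * (4 * k) = (l.length + 1) * (4 * k) := by ring
    rwa [h4] at h3

lemma close_derived_one (hfin : X.Finite) (hgen : Subgroup.closure X = ⊤) (g : G) :
    Close X ((X.ncard + 1) / 2) (derivedSeries G 1) g := by
  have hder : derivedSeries G 1 = commutator G := by
    rw [derivedSeries_succ, derivedSeries_zero]
    rfl
  obtain ⟨d, hd, f, hf, hrange⟩ : ∃ d : ℕ, d = X.ncard ∧ ∃ f : Fin d → G, (∀ i, f i ∈ X) ∧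
      Set.range f = X := by
    haveI := hfin.to_subtype
    refine ⟨X.ncard, rfl, ?_⟩
    have hcard : Nat.card X = X.ncard := rfl
    have e : Fin X.ncard ≃ X := (Finite.equivFinOfCardEq hcard).symm
    refine ⟨fun i => (e i : G), fun i => (e i).2, ?_⟩
    ext x
    constructor
    · rintro ⟨i, rfl⟩
      exact (e i).2
    · intro hx
      exact ⟨e.symm ⟨x, hx⟩, by simp⟩
  rw [← hd]
  obtain ⟨n, hn⟩ := exists_prod_pow (fun i => (Abelianization.of (f i) : Abelianization G)) (by
    have : Set.range (fun i => (Abelianization.of (f i) : Abelianization G)) =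
        (Abelianization.of : G →* Abelianization G) '' X := by
      rw [← hrange, ← Set.range_comp]
      rfl
    rw [this, ← MonoidHom.map_closure, hgen, Subgroup.map_top_of_surjective]
    exact QuotientGroup.mk'_surjective _) (Abelianization.of g)
  refine ⟨(List.ofFn (fun i => f i ^ n i)).prod, ?_, ?_⟩
  · have := isProd_of_list (X := X) (List.ofFn (fun i => f i ^ n i)) (by
      intro a ha
      rw [List.mem_ofFn] at ha
      obtain ⟨i, rfl⟩ := ha
      exact exists_pow_word (f i) (hf i) (n i))
    rw [List.length_ofFn] at this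
    exact isProd_mono (by omega) this
  · rw [hder, ← Abelianization.ker_of, MonoidHom.mem_ker, map_mul, map_inv, ← hn, map_list_prod,
      List.map_ofFn, List.prod_ofFn]
    simp

lemma close_derived (hfin : X.Finite) (hne : X.Nonempty) (hgen : Subgroup.closure X = ⊤) {c : ℕ}
    (hc : MixedWidthLE X c) (i : ℕ) :
    ∀ g : G, Close X ((X.ncard + 1) / 2 * (4 * c + 1) ^ i) (derivedSeries G (i + 1)) g := by
  induction i with
  | zero =>
    intro g
    simpa using close_derived_one hfin hgen g
  | succ i ih =>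
    intro g
    set a := (X.ncard + 1) / 2 * (4 * c + 1) ^ i with ha
    haveI : (derivedSeries G (i + 1)).Normal := inferInstance
    obtain ⟨b, hb, hb2⟩ := ih g
    have h1 : b⁻¹ * g ∈ commutator G := by
      have hle : derivedSeries G (i + 1) ≤ derivedSeries G 1 := derivedSeries_antitone G (by omega)
      have h2 := hle hb2
      rw [derivedSeries_succ, derivedSeries_zero] at h2
      exact h2
    obtain ⟨l, hl1, hl2, hl3⟩ := hc _ h1
    have hpos : 0 < X.ncard := (Set.ncard_pos hfin).2 hne
    have ha1 : 1 ≤ a := by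
      have h0 : 1 ≤ (X.ncard + 1) / 2 := by omega
      have h0' : 1 ≤ (4 * c + 1) ^ i := Nat.one_le_pow _ _ (by omega)
      rw [ha]
      exact Nat.mul_le_mul h0 h0'
    have h3 := close_list hgen ha1 ih l hl2
    rw [hl3] at h3
    rw [derivedSeries_succ]
    have h4 : Close X a ⁅derivedSeries G (i + 1), derivedSeries G (i + 1)⁆ b :=
      ⟨b, hb, by simp⟩
    have h5 := close_mul h4 h3
    have h6 : b * (b⁻¹ * g) = g := by group
    rw [h6] at h5
    refine close_mono ?_ h5
    calc a + l.length * (4 * a) ≤ a + c * (4 * a) := by gcongr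
      _ = (X.ncard + 1) / 2 * (4 * c + 1) ^ (i + 1) := by rw [ha]; ring

/-- A solvable group `G` of derived length at most `d` in which every element of the commutator
subgroup is a product of at most `c` commutators and palindromes over the finite generating set
`X` has palindromic width at most `(|X| + 1) (4 c + 1) ^ (d - 1)` with respect to `X`. -/
theorem palWidth_le_of_solvable (hfin : X.Finite) (hgen : Subgroup.closure X = ⊤) {c d : ℕ}
    (hc : MixedWidthLE X c) (hd : derivedSeries G d = ⊥) :
    palWidth X ≤ ((X.ncard + 1) * (4 * c + 1) ^ (d - 1) : ℕ) := by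
  apply palWidth_le
  intro g
  apply palLength_le
  rcases X.eq_empty_or_nonempty with hX | hne
  · have htriv : g = 1 := by
      have hx : g ∈ Subgroup.closure X := by rw [hgen]; trivial
      rw [hX, Subgroup.closure_empty] at hx
      exact Subgroup.mem_bot.1 hx
    rw [htriv]
    exact isProd_one _
  have hd' : derivedSeries G (d - 1 + 1) = ⊥ := by
    rw [eq_bot_iff, ← hd]
    exact derivedSeries_antitone G (by omega)
  obtain ⟨b, hb, hb2⟩ := close_derived hfin hne hgen hc (d - 1) g
  rw [hd', Subgroup.mem_bot, inv_mul_eq_one] at hb2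
  subst hb2
  refine isProd_mono ?_ hb
  calc 2 * ((X.ncard + 1) / 2 * (4 * c + 1) ^ (d - 1))
      = (2 * ((X.ncard + 1) / 2)) * (4 * c + 1) ^ (d - 1) := by ring
    _ ≤ (X.ncard + 1) * (4 * c + 1) ^ (d - 1) :=
        Nat.mul_le_mul_right _ (Nat.mul_div_le _ _)

end Pool.Agent.Work.MP_738270_al
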